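import Pool.Agent.Hhelper31.Penner.Puncture3
import Pool.Agent.Hhelper31.Penner.Test
import Pool.Agent.Hhelper31.Penner.Eigen

/-!
# An orientation-reversing pseudo-Anosov map without a power arising from Penner's construction

The surface is the degree four cover `w ^ 4 = F (x, y)` of the torus minus its four points of order
at most two, and the map is `f (x, y, w) = (x + y, x, G (x, y) / w)`. Its square has the
eigenvalue `ν` on `Hom (H¹ (S; ℤ), ℂ)`, where `|ν| = 1` and `ν` is not a root of unity; products of
twists as in Penner's construction have no eigenvalue of modulus one besides `1`.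
-/

namespace Pool.Agent.Results.MP_e87149_gt.NoPennerPower

open Pool.Agent.Hhelper31.Penner

/-- There are a connected oriented surface of finite type and an orientation-reversing
pseudo-Anosov map of it, no positive power of which is homotopic to a product of positive twists
about the curves of a family of disjoint simple closed curves and negative twists
about the curves of another such family. -/
theorem result : ∃ (S : Type) (_ : TopologicalSpace S) (_ : T2Space S)
    (_ : SecondCountableTopology S) (_ : ConnectedSpace S) (𝒜 : OrientedAtlas S) (f : S ≃ₜ S),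
    OrientationReversing 𝒜 f ∧ IsPseudoAnosov f ∧
      ∀ k : ℕ, 1 ≤ k → ∀ g : S ≃ₜ S, IsPennerProduct 𝒜 g →
        ¬ ContinuousMap.Homotopic ((f ^ k : S ≃ₜ S) : C(S, S)) (g : C(S, S)) := by
  obtain ⟨P, hP⟩ := exists_punctures
  obtain ⟨u, h3, h0, h1, h2, hv, ho⟩ := exists_test
  refine ⟨Surf, inferInstance, inferInstance, inferInstance, connectedSpace_surf, atlas, ff,
    ff_orientationReversing, ⟨_, _, ff_pseudoAnosov P hP⟩, ?_⟩
  intro k hk g hg
  exact no_power ff ξν (ξν_ne u h3 h0 h1 h2 hv ho) ν norm_ν (fun k hk => ν_pow_ne k hk) push_ξν k hk
    g hg

end Pool.Agent.Results.MP_e87149_gt.NoPennerPower
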